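import Pool.Agent.Q67.LV.Defs

/-!
# Project LV (helper67), job LV-3: summation over dyadic scales
-/

set_option autoImplicit false

open MeasureTheory Set Metric
open scoped ENNReal

namespace Pool.Agent.Q14.LV

/-- Fubini over small balls. -/
theorem piece (g : (Fin 3 → ℝ) → ℝ≥0∞) (hg : Measurable g) (E S : Set (Fin 3 → ℝ))
    (hS : MeasurableSet S) {ρ : ℝ} (hρ : 0 < ρ) (b : ℝ≥0∞)
    (h : ∀ z, (E ∩ closedBall z ρ).Nonempty → z ∈ S ∧ ∫⁻ y in closedBall z ρ, g y ≤ b) :
    (∫⁻ y in E, g y) * ENNReal.ofReal ((2 * ρ) ^ 3) ≤ b * volume S := by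
  have hvol : ∀ y : Fin 3 → ℝ, volume (closedBall y ρ) = ENNReal.ofReal ((2 * ρ) ^ 3) := by
    intro y
    rw [Real.volume_pi_closedBall y hρ.le, Fintype.card_fin]
  obtain ⟨F, hF⟩ : ∃ F : (Fin 3 → ℝ) → (Fin 3 → ℝ) → ℝ≥0∞,
      F = fun y z => if dist y z ≤ ρ then g y else 0 := ⟨_, rfl⟩
  have hFm : Measurable (Function.uncurry F) := by
    rw [hF]
    exact Measurable.ite (measurableSet_le (continuous_dist.measurable) measurable_const)
      (hg.comp measurable_fst) measurable_const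
  have h1 : (∫⁻ y in E, g y) * ENNReal.ofReal ((2 * ρ) ^ 3) = ∫⁻ y in E, ∫⁻ z, F y z := by
    rw [← lintegral_mul_const _ hg]
    refine lintegral_congr fun y => ?_
    have h2 : (fun z => F y z) = (closedBall y ρ).indicator (fun _ => g y) := by
      funext z
      rw [hF]
      show (if dist y z ≤ ρ then g y else 0) = _
      by_cases hz : dist y z ≤ ρ
      · rw [if_pos hz, indicator_of_mem (by rw [mem_closedBall, dist_comm]; exact hz)]
      · rw [if_neg hz, indicator_of_notMem (by rw [mem_closedBall, dist_comm]; exact hz)]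
    rw [h2, lintegral_indicator isClosed_closedBall.measurableSet, setLIntegral_const, hvol y]
  rw [h1, lintegral_lintegral_swap hFm.aemeasurable]
  have h3 : ∀ z, ∫⁻ y in E, F y z ≤ S.indicator (fun _ => b) z := by
    intro z
    by_cases hz : (E ∩ closedBall z ρ).Nonempty
    · obtain ⟨h4, h5⟩ := h z hz
      rw [indicator_of_mem h4]
      have h6 : (fun y => F y z) = (closedBall z ρ).indicator g := by
        funext y
        rw [hF]
        show (if dist y z ≤ ρ then g y else 0) = _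
        by_cases hy : dist y z ≤ ρ
        · rw [if_pos hy, indicator_of_mem (by rw [mem_closedBall]; exact hy)]
        · rw [if_neg hy, indicator_of_notMem (by rw [mem_closedBall]; exact hy)]
      rw [h6]
      calc ∫⁻ y in E, (closedBall z ρ).indicator g y ≤ ∫⁻ y, (closedBall z ρ).indicator g y :=
            setLIntegral_le_lintegral _ _
        _ = ∫⁻ y in closedBall z ρ, g y :=
            lintegral_indicator isClosed_closedBall.measurableSet _
        _ ≤ b := h5
    · have h7 : ∫⁻ y in E, F y z = 0 := by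
        have hm : Measurable fun y => F y z := hFm.comp (measurable_id.prodMk measurable_const)
        have h8 : ∀ᵐ y ∂(volume.restrict E), F y z = 0 := by
          have h9 : {y | F y z = 0}ᶜ ∩ E = ∅ := by
            rw [Set.eq_empty_iff_forall_notMem]
            rintro y ⟨hy1, hy2⟩
            apply hy1
            show F y z = 0
            rw [hF]
            show (if dist y z ≤ ρ then g y else 0) = 0
            rw [if_neg]
            intro hd
            exact hz ⟨y, hy2, mem_closedBall.2 hd⟩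
          rw [ae_iff]
          have h10 : MeasurableSet {y | ¬ F y z = 0} := (measurableSet_eq_fun hm measurable_const).compl
          rw [Measure.restrict_apply h10]
          have h11 : {y | ¬ F y z = 0} ∩ E = ∅ := h9
          rw [h11, measure_empty]
        rw [lintegral_congr_ae h8, lintegral_zero]
      rw [h7]
      exact zero_le
  refine (lintegral_mono h3).trans ?_
  rw [lintegral_indicator hS, setLIntegral_const]

theorem sum_all : Pool.Agent.Q67.LV.StmSum := by
  obtain ⟨q, hq⟩ : ∃ q : ℝ, q = (1 / 2 : ℝ) ^ (1 / 3 : ℝ) := ⟨_, rfl⟩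
  have hq0 : 0 < q := by
    rw [hq]
    positivity
  have hq1 : q < 1 := by
    rw [hq]
    exact Real.rpow_lt_one (by norm_num) (by norm_num) (by norm_num)
  refine ⟨64 ^ 4 * (1 - q)⁻¹, by
    have : 0 < 1 - q := by linarith
    positivity, ?_⟩
  intro x₀ r₀ A D B g hr0 hr1 hA hD hg hBm hB hint hcov
  obtain ⟨r, hr⟩ : ∃ r : ℕ → ℝ, ∀ k, r k = r₀ / 2 ^ k := ⟨_, fun k => rfl⟩
  have hrpos : ∀ k, 0 < r k := fun k => by
    rw [hr]
    positivity
  have hrle : ∀ k, r k ≤ r₀ := fun k => by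
    rw [hr]
    exact div_le_self hr0.le (one_le_pow₀ (by norm_num))
  have hrs : ∀ k, r k = 2 * r (k + 1) := fun k => by
    rw [hr, hr, pow_succ]
    field_simp
  have hrp : ∀ k, r k ^ (1 / 3 : ℝ) = r₀ ^ (1 / 3 : ℝ) * q ^ k := by
    intro k
    rw [hr, hq]
    have h1 : r₀ / 2 ^ k = r₀ * (1 / 2) ^ k := by
      rw [one_div, inv_pow]
      rfl
    rw [h1, Real.mul_rpow hr0.le (by positivity), ← Real.rpow_natCast, ← Real.rpow_natCast,
      ← Real.rpow_mul (by norm_num), ← Real.rpow_mul (by norm_num), mul_comm (k : ℝ)]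
  obtain ⟨G, hG⟩ : ∃ G : ℕ → Set (Fin 3 → ℝ), ∀ k, G k =
      ⋃ x ∈ {x | x ∈ closedBall x₀ (2 * r₀) ∧ x ∉ B k}, ball x (r k / 32) := ⟨_, fun k => rfl⟩
  have hGm : ∀ k, MeasurableSet (G k) := fun k => by
    rw [hG]
    exact (isOpen_biUnion fun x _ => isOpen_ball).measurableSet
  have hmemG : ∀ k y, y ∈ G k ↔ ∃ x, x ∈ closedBall x₀ (2 * r₀) ∧ x ∉ B k ∧ dist y x < r k / 32 := by
    intro k y
    rw [hG]
    simp only [mem_iUnion, mem_ball, exists_prop, Set.mem_ofPred_eq]
    constructor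
    · rintro ⟨x, ⟨h1, h2⟩, h3⟩
      exact ⟨x, h1, h2, h3⟩
    · rintro ⟨x, h1, h2, h3⟩
      exact ⟨x, ⟨h1, h2⟩, h3⟩
  obtain ⟨E, hE⟩ : ∃ E : ℕ → Set (Fin 3 → ℝ), ∀ k, E k = closedBall x₀ r₀ ∩ disjointed G k :=
    ⟨_, fun k => rfl⟩
  have hcover : closedBall x₀ r₀ ⊆ ⋃ k, E k := by
    intro y hy
    obtain ⟨k, x, hx1, hx2, hx3⟩ := hcov y hy
    have h1 : y ∈ ⋃ k, disjointed G k := by
      rw [iUnion_disjointed, mem_iUnion]
      refine ⟨k, (hmemG k y).2 ⟨x, hx1, hx2, ?_⟩⟩
      rw [dist_comm, dist_eq_norm, hr]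
      exact hx3
    obtain ⟨j, hj⟩ := mem_iUnion.1 h1
    exact mem_iUnion.2 ⟨j, by rw [hE]; exact ⟨hy, hj⟩⟩
  have hEG : ∀ k, E k ⊆ G k := fun k y hy => by
    rw [hE] at hy
    exact disjointed_subset G k hy.2
  have hEQ : ∀ k, E k ⊆ closedBall x₀ r₀ := fun k y hy => by
    rw [hE] at hy
    exact hy.1
  have hEn : ∀ k, ∀ y ∈ E (k + 1), y ∉ G k := by
    intro k y hy hyG
    rw [hE] at hy
    have h1 := hy.2
    rw [disjointed_eq_inter_compl] at h1
    have h2 := mem_iInter₂.1 h1.2 k (Nat.lt_succ_self k)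
    exact h2 hyG
  -- one piece
  have hpiece : ∀ k, ∫⁻ y in E k, g y ≤
      ENNReal.ofReal (64 ^ 4 * (1 + A) * D * r₀ ^ (1 / 3 : ℝ) * q ^ k) := by
    intro k
    have hρ : 0 < r k / 128 := by
      have := hrpos k
      positivity
    have hz1 : ∀ z, (E k ∩ closedBall z (r k / 128)).Nonempty →
        ∫⁻ y in closedBall z (r k / 128), g y ≤ ENNReal.ofReal (D * r k ^ (4 / 3 : ℝ)) := by
      rintro z ⟨y, hy1, hy2⟩
      obtain ⟨x, hx1, hx2, hx3⟩ := (hmemG k y).1 (hEG k hy1)
      have h1 := hint k x hx1 hx2 z (by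
        rw [← hr, ← dist_eq_norm]
        have h2 : dist z x ≤ dist z y + dist y x := dist_triangle _ _ _
        have h3 : dist z y ≤ r k / 128 := by
          rw [dist_comm]
          exact mem_closedBall.1 hy2
        have := hrpos k
        linarith)
      rw [← hr] at h1
      exact h1
    have hr43 : r k ^ (4 / 3 : ℝ) = r k * r k ^ (1 / 3 : ℝ) := by
      have h1 : (4 / 3 : ℝ) = 1 + 1 / 3 := by norm_num
      rw [h1, Real.rpow_add (hrpos k), Real.rpow_one]
    have hz2 : ∃ S : Set (Fin 3 → ℝ), MeasurableSet S ∧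
        volume S ≤ ENNReal.ofReal (64 * (1 + A) * r k ^ 2) ∧
        ∀ z, (E k ∩ closedBall z (r k / 128)).Nonempty → z ∈ S := by
      cases k with
      | zero =>
        have e0 : r 0 = r₀ := by rw [hr, pow_zero, div_one]
        refine ⟨closedBall x₀ (2 * r₀), isClosed_closedBall.measurableSet, ?_, ?_⟩
        · rw [Real.volume_pi_closedBall x₀ (by positivity), Fintype.card_fin, e0]
          apply ENNReal.ofReal_le_ofReal
          have h1 : (2 * (2 * r₀)) ^ 3 = 64 * r₀ ^ 2 * r₀ := by ring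
          rw [h1]
          have h2 : 64 * r₀ ^ 2 * r₀ ≤ 64 * r₀ ^ 2 * 1 :=
            mul_le_mul_of_nonneg_left hr1 (by positivity)
          have h3 : 0 ≤ A * r₀ ^ 2 := by positivity
          nlinarith
        · rintro z ⟨y, hy1, hy2⟩
          have h1 : dist z x₀ ≤ dist z y + dist y x₀ := dist_triangle _ _ _
          have h2 : dist z y ≤ r 0 / 128 := by
            rw [dist_comm]
            exact mem_closedBall.1 hy2
          have h3 : dist y x₀ ≤ r₀ := mem_closedBall.1 (hEQ 0 hy1)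
          rw [mem_closedBall]
          rw [e0] at h2
          linarith
      | succ j =>
        refine ⟨B j, hBm j, ?_, ?_⟩
        · refine (hB j).trans ?_
          rw [← hr]
          apply ENNReal.ofReal_le_ofReal
          rw [hrs j]
          have h1 : 0 ≤ r (j + 1) ^ 2 := by positivity
          nlinarith [mul_nonneg hA h1]
        · rintro z ⟨y, hy1, hy2⟩
          by_contra hzB
          have h2 : dist z y ≤ r (j + 1) / 128 := by
            rw [dist_comm]
            exact mem_closedBall.1 hy2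
          have h1 : dist z x₀ ≤ dist z y + dist y x₀ := dist_triangle _ _ _
          have h3 : dist y x₀ ≤ r₀ := mem_closedBall.1 (hEQ (j + 1) hy1)
          have h4 := hrle (j + 1)
          refine hEn j y hy1 ((hmemG j y).2 ⟨z, ?_, hzB, ?_⟩)
          · rw [mem_closedBall]
            linarith
          · have h5 : dist y z ≤ r (j + 1) / 128 := mem_closedBall.1 hy2
            have h6 := hrs j
            have h7 := hrpos (j + 1)
            linarith
    obtain ⟨S, hS1, hS2, hS3⟩ := hz2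
    have h1 := piece g hg (E k) S hS1 hρ _ (fun z hz => ⟨hS3 z hz, hz1 z hz⟩)
    have hv : (2 * (r k / 128)) ^ 3 = r k ^ 3 / 64 ^ 3 := by ring
    rw [hv] at h1
    have hvpos : 0 < r k ^ 3 / 64 ^ 3 := by
      have := hrpos k
      positivity
    have h2 : ENNReal.ofReal (D * r k ^ (4 / 3 : ℝ)) * volume S ≤
        ENNReal.ofReal (D * r k ^ (4 / 3 : ℝ)) * ENNReal.ofReal (64 * (1 + A) * r k ^ 2) :=
      mul_le_mul_right hS2 _
    have h3 := h1.trans h2
    have hD0 : 0 ≤ D * r k ^ (4 / 3 : ℝ) := mul_nonneg hD (Real.rpow_nonneg (hrpos k).le _)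
    rw [← ENNReal.ofReal_mul hD0] at h3
    have h4 : D * r k ^ (4 / 3 : ℝ) * (64 * (1 + A) * r k ^ 2) =
        (64 ^ 4 * (1 + A) * D * r₀ ^ (1 / 3 : ℝ) * q ^ k) * (r k ^ 3 / 64 ^ 3) := by
      rw [hr43, hrp k]
      ring
    have hnn : 0 ≤ 64 ^ 4 * (1 + A) * D * r₀ ^ (1 / 3 : ℝ) * q ^ k := by
      have : 0 ≤ r₀ ^ (1 / 3 : ℝ) := Real.rpow_nonneg hr0.le _
      positivity
    rw [h4, ENNReal.ofReal_mul hnn] at h3
    exact (ENNReal.mul_le_mul_iff_left (ENNReal.ofReal_pos.2 hvpos).ne' ENNReal.ofReal_ne_top).1 h3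
  -- the sum
  have hc0 : 0 ≤ 64 ^ 4 * (1 + A) * D * r₀ ^ (1 / 3 : ℝ) := by
    have : 0 ≤ r₀ ^ (1 / 3 : ℝ) := Real.rpow_nonneg hr0.le _
    positivity
  calc ∫⁻ y in closedBall x₀ r₀, g y ≤ ∫⁻ y in ⋃ k, E k, g y :=
        lintegral_mono_set hcover
    _ ≤ ∑' k, ∫⁻ y in E k, g y := lintegral_iUnion_le _ _
    _ ≤ ∑' k, ENNReal.ofReal (64 ^ 4 * (1 + A) * D * r₀ ^ (1 / 3 : ℝ) * q ^ k) :=
        ENNReal.tsum_le_tsum hpiece
    _ = ENNReal.ofReal (∑' k, 64 ^ 4 * (1 + A) * D * r₀ ^ (1 / 3 : ℝ) * q ^ k) := by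
        rw [ENNReal.ofReal_tsum_of_nonneg (fun k => mul_nonneg hc0 (pow_nonneg hq0.le k))
          ((summable_geometric_of_lt_one hq0.le hq1).mul_left _)]
    _ = ENNReal.ofReal (64 ^ 4 * (1 - q)⁻¹ * (1 + A) * D * r₀ ^ (1 / 3 : ℝ)) := by
        rw [tsum_mul_left, tsum_geometric_of_lt_one hq0.le hq1]
        congr 1
        ring

end Pool.Agent.Q14.LV
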