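import Pool.Agent.Q67.LV.Defs
import Pool.Agent.Q182.VL.Bas
import Pool.Agent.Q223.VL.Wd

/-!
# Project LV (helper67), job LV-6: the field of the large vorticities with a sign
-/

set_option autoImplicit false

open MeasureTheory Set Metric Filter Topology
open scoped ContDiff
open H459R3.NS Pool.Agent.W268.NS Pool.Agent.Q67.VD Pool.Agent.Q85.CC Pool.Agent.Q85.CL
open Pool.Agent.Q151.CC Pool.Agent.Q85.VL

namespace Pool.Agent.Q14.LV

open Pool.Agent.Q223.VL (oo oo_smooth oo_nonneg oo_fderiv comp_le)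

theorem oo_dom {v : V → V} (hv : SM v) (y : V) :
    |fderiv ℝ (oo (vort v)) y (vort v y)| ≤ 2 * (om v y ^ 2 * dom v y) := by
  have hdf := vort_df hv
  rw [oo_fderiv hdf.smooth]
  have hc : ∀ i, |vort v y i| ≤ om v y := fun i => comp_le (vort v y) i
  have hom : 0 ≤ om v y := Real.sqrt_nonneg _
  have h1 : ∀ i, |vort v y i * fderiv ℝ (fun z => vort v z i) y (vort v y)| ≤
      om v y ^ 2 * ∑ j, |pd j (fun z => vort v z i) y| := by
    intro i
    rw [abs_mul, fderiv_sum, pow_two, mul_assoc]
    refine mul_le_mul (hc i) ?_ (abs_nonneg _) hom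
    refine (Finset.abs_sum_le_sum_abs _ _).trans ?_
    rw [Finset.mul_sum]
    refine Finset.sum_le_sum fun j _ => ?_
    rw [abs_mul, mul_comm]
    exact mul_le_mul_of_nonneg_right (hc j) (abs_nonneg _)
  rw [abs_mul, abs_two]
  refine mul_le_mul_of_nonneg_left ?_ zero_le_two
  refine (abs_add_three _ _ _).trans ?_
  have h2 : dom v y = ∑ j, |pd j (fun z => vort v z 0) y| + ∑ j, |pd j (fun z => vort v z 1) y| +
      ∑ j, |pd j (fun z => vort v z 2) y| := by
    unfold dom
    rw [Fin.sum_univ_three]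
  rw [h2, mul_add, mul_add]
  exact add_le_add (add_le_add (h1 0) (h1 1)) (h1 2)

theorem w0 (hB : StmBas) : Pool.Agent.Q67.LV.StmW0 := by
  obtain ⟨hsd, hsc, hs'c, -, hsb, hs0, hs1, hs', -, -, -⟩ := hB
  refine ⟨4, by norm_num, ?_⟩
  intro v θ a R M hv hR hM hθ hθc
  have hdf := vort_df hv
  have hwc : Continuous (vort v) := hdf.cont
  have hq : ContDiff ℝ 1 (oo (vort v)) := oo_smooth hdf.smooth
  have homc : Continuous (om v) := by
    have h1 : om v = fun y => √(oo (vort v) y) := rfl
    rw [h1]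
    exact Real.continuous_sqrt.comp hq.continuous
  have hom0 : ∀ y, 0 ≤ om v y := fun y => Real.sqrt_nonneg _
  have homsq : ∀ y, om v y ^ 2 = oo (vort v) y := fun y => Real.sq_sqrt (oo_nonneg y)
  have hL : 0 < 2 * M + 3 := by linarith
  -- the argument of the step
  obtain ⟨g, hg⟩ : ∃ g : V → ℝ, g = fun y => (2 * M + 3)⁻¹ * oo (vort v) y - (2 * M + 3)⁻¹ * (M + 1) ^ 2 :=
    ⟨_, rfl⟩
  have hgc : ContDiff ℝ 1 g := by
    rw [hg]
    exact (contDiff_const.mul hq).sub contDiff_const
  have hgv : ∀ y, g y = (2 * M + 3)⁻¹ * (om v y ^ 2 - (M + 1) ^ 2) := fun y => by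
    rw [hg, homsq]
    ring
  have hgf : ∀ y, HasFDerivAt g ((2 * M + 3)⁻¹ • fderiv ℝ (oo (vort v)) y) y := by
    intro y
    have a2 := (hq.differentiable one_ne_zero y).hasFDerivAt
    have a3 := (a2.const_mul (2 * M + 3)⁻¹).sub_const ((2 * M + 3)⁻¹ * (M + 1) ^ 2)
    rw [hg]
    exact a3
  have hg0 : ∀ y, om v y ≤ M + 1 → g y ≤ 0 := by
    intro y hy
    rw [hgv]
    have h1 : om v y ^ 2 ≤ (M + 1) ^ 2 := pow_le_pow_left₀ (hom0 y) hy 2
    exact mul_nonpos_of_nonneg_of_nonpos (inv_nonneg.2 hL.le) (by linarith)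
  have hg0' : ∀ y, om v y < M + 1 → g y < 0 := by
    intro y hy
    rw [hgv]
    have h1 : om v y ^ 2 < (M + 1) ^ 2 := pow_lt_pow_left₀ hy (hom0 y) two_ne_zero
    exact mul_neg_of_pos_of_neg (inv_pos.2 hL) (by linarith)
  have hg1 : ∀ y, M + 2 ≤ om v y → 1 ≤ g y := by
    intro y hy
    rw [hgv]
    have h1 : (M + 2) ^ 2 ≤ om v y ^ 2 := pow_le_pow_left₀ (by linarith) hy 2
    have h2 : (2 * M + 3)⁻¹ * (2 * M + 3) = 1 := inv_mul_cancel₀ hL.ne'
    have h3 : (2 * M + 3)⁻¹ * (2 * M + 3) ≤ (2 * M + 3)⁻¹ * (om v y ^ 2 - (M + 1) ^ 2) :=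
      mul_le_mul_of_nonneg_left (by nlinarith) (inv_nonneg.2 hL.le)
    linarith
  obtain ⟨h, hh⟩ : ∃ h : V → ℝ, h = fun y => stp (g y) := ⟨_, rfl⟩
  have hhc : ContDiff ℝ 1 h := by
    rw [hh]
    exact hsc.comp hgc
  have hhf : ∀ y, fderiv ℝ h y (vort v y) =
      stp' (g y) * ((2 * M + 3)⁻¹ * fderiv ℝ (oo (vort v)) y (vort v y)) := by
    intro y
    have a4 := (hsd (g y)).comp_hasFDerivAt y (hgf y)
    have a5 : HasFDerivAt h (stp' (g y) • ((2 * M + 3)⁻¹ • fderiv ℝ (oo (vort v)) y)) y := by
      rw [hh]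
      exact a4
    rw [a5.fderiv]
    simp only [smul_apply, smul_eq_mul]
  -- the density
  obtain ⟨s, hs⟩ : ∃ s : V → ℝ, s = fun y =>
      stp' (g y) * ((2 * M + 3)⁻¹ * fderiv ℝ (oo (vort v)) y (vort v y)) := ⟨_, rfl⟩
  have hsct : Continuous s := by
    rw [hs]
    exact (hs'c.comp hgc.continuous).mul (continuous_const.mul
      ((hq.continuous_fderiv one_ne_zero).clm_apply hwc))
  have hsup : ∀ y, s y ≠ 0 → om v y < M + 2 := by
    intro y hy
    have h1 : stp' (g y) ≠ 0 := by
      intro h0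
      apply hy
      rw [hs]
      show stp' (g y) * _ = 0
      rw [h0, zero_mul]
    have h2 := (hs' _ h1).2
    by_contra hcon
    push Not at hcon
    linarith [hg1 y hcon]
  have hsbd : ∀ y, |s y| ≤ 4 * (M + 2) * dom v y := by
    intro y
    have hd0 : 0 ≤ dom v y := by
      unfold dom
      exact Finset.sum_nonneg fun i _ => Finset.sum_nonneg fun j _ => abs_nonneg _
    by_cases hy : s y = 0
    · rw [hy, abs_zero]
      positivity
    · have h1 := hsup y hy
      have h2 := hsb (g y)
      have h3 := oo_dom hv y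
      rw [hs]
      show |stp' (g y) * ((2 * M + 3)⁻¹ * fderiv ℝ (oo (vort v)) y (vort v y))| ≤ _
      rw [abs_mul, abs_mul, abs_of_nonneg h2.2.2.1, abs_of_pos (inv_pos.2 hL)]
      have h4 : om v y ^ 2 ≤ (M + 2) ^ 2 := pow_le_pow_left₀ (hom0 y) h1.le 2
      calc stp' (g y) * ((2 * M + 3)⁻¹ * |fderiv ℝ (oo (vort v)) y (vort v y)|)
          ≤ 2 * ((2 * M + 3)⁻¹ * (2 * ((M + 2) ^ 2 * dom v y))) := by
            refine mul_le_mul h2.2.2.2 ?_ (by positivity) zero_le_two
            refine mul_le_mul_of_nonneg_left ?_ (inv_nonneg.2 hL.le)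
            refine h3.trans ?_
            have h5 := mul_le_mul_of_nonneg_right h4 hd0
            linarith
        _ = 4 * (M + 2) * dom v y * ((2 * M + 3)⁻¹ * (M + 2)) := by ring
        _ ≤ 4 * (M + 2) * dom v y * 1 := by
            refine mul_le_mul_of_nonneg_left ?_ (by positivity)
            rw [inv_mul_le_iff₀ hL]
            linarith
        _ = _ := mul_one _
  -- locally constant signs
  have hθloc : ∀ y, y ∈ ball a R → M < om v y → ∀ᶠ z in 𝓝 y, θ z = θ y := by
    intro y hy hMy
    have hnb : {y | ‖y - a‖ ≤ R ∧ M < om v y} ∈ 𝓝 y := by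
      have h1 : ∀ᶠ z in 𝓝 y, z ∈ ball a R := isOpen_ball.mem_nhds hy
      have h2 : ∀ᶠ z in 𝓝 y, M < om v z := homc.continuousAt.eventually_const_lt hMy
      filter_upwards [h1, h2] with z h3 h4
      rw [Metric.mem_ball, dist_eq_norm] at h3
      exact ⟨h3.le, h4⟩
    have h1 : ContinuousAt θ y := hθc.continuousAt hnb
    have h2 := Metric.tendsto_nhds.1 h1 1 one_pos
    filter_upwards [h2] with z h7
    rw [Real.dist_eq] at h7
    rcases hθ z with h8 | h8 <;> rcases hθ y with h9 | h9 <;> rw [h8, h9] at h7 ⊢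
    · norm_num at h7
    · norm_num at h7
  have hlow : ∀ y, om v y ≤ M → ∀ᶠ z in 𝓝 y, g z < 0 := by
    intro y hy
    exact hgc.continuous.continuousAt.eventually_lt_const (hg0' y (by linarith))
  -- the cut-off
  let χ : ContDiffBump a := ⟨R / 2, 3 * R / 4, by positivity, by linarith⟩
  have hχ1 : ∀ y ∈ closedBall a (R / 2), χ y = 1 := fun y hy => χ.one_of_mem_closedBall hy
  have hχc : ContDiff ℝ 1 χ := χ.contDiff
  have hχt : tsupport χ = closedBall a (3 * R / 4) := χ.tsupport_eq
  have hχout : ∀ y, y ∉ ball a R → ∀ᶠ z in 𝓝 y, χ z = 0 := by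
    intro y hy
    have h1 : y ∉ tsupport χ := by
      rw [hχt]
      intro h2
      apply hy
      rw [mem_closedBall] at h2
      rw [Metric.mem_ball]
      linarith
    have h2 := notMem_tsupport_iff_eventuallyEq.1 h1
    exact h2
  have hχb : ∀ y, |χ y| ≤ 1 := fun y => by
    rw [abs_of_nonneg χ.nonneg]
    exact χ.le_one
  obtain ⟨H, hH⟩ : ∃ H : V → ℝ, H = fun y => χ y * h y * θ y := ⟨_, rfl⟩
  obtain ⟨σ, hσ⟩ : ∃ σ : V → ℝ, σ = fun y => χ y * s y * θ y := ⟨_, rfl⟩
  -- a general principle
  have hgen : ∀ f : V → ℝ, (∀ y, g y < 0 → f y = 0) → ∀ y,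
      (∃ c : ℝ, (fun z => χ z * f z * θ z) =ᶠ[𝓝 y] fun z => χ z * f z * c) := by
    intro f hf y
    by_cases hy : y ∈ ball a R
    · by_cases hMy : M < om v y
      · refine ⟨θ y, ?_⟩
        filter_upwards [hθloc y hy hMy] with z hz
        rw [hz]
      · refine ⟨0, ?_⟩
        filter_upwards [hlow y (not_lt.1 hMy)] with z hz
        rw [hf z hz]
        ring
    · refine ⟨0, ?_⟩
      filter_upwards [hχout y hy] with z hz
      rw [hz]
      ring
  have hh0 : ∀ y, g y < 0 → h y = 0 := fun y hy => by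
    rw [hh]
    exact hs0 _ hy.le
  have hs00 : ∀ y, g y < 0 → s y = 0 := fun y hy => by
    rw [hs]
    have h1 : stp' (g y) = 0 := by
      by_contra hc
      have := (hs' _ hc).1
      linarith
    show stp' (g y) * _ = 0
    rw [h1, zero_mul]
  have hHc : ContDiff ℝ 1 H := by
    rw [contDiff_iff_contDiffAt]
    intro y
    obtain ⟨c, hc⟩ := hgen h hh0 y
    rw [hH]
    exact ((hχc.mul hhc).mul contDiff_const).contDiffAt.congr_of_eventuallyEq hc
  have hσc : Continuous σ := by
    rw [continuous_iff_continuousAt]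
    intro y
    obtain ⟨c, hc⟩ := hgen s hs00 y
    rw [hσ]
    exact ((hχc.continuous.mul hsct).mul continuous_const).continuousAt.congr hc.symm
  have hθ1 : ∀ y, |θ y| = 1 := fun y => by
    rcases hθ y with h | h <;> simp [h]
  refine ⟨fun y => H y • vort v y, h, σ, hHc.continuous.smul hwc, hhc.continuous, hσc,
    fun y => ?_, fun y hy => ?_, fun y hy => ?_, fun y hy => ?_, ?_, fun y => ?_, fun y hy => ?_,
    fun F hF hts => ?_⟩
  · rw [hh]
    exact ⟨(hsb (g y)).1, (hsb (g y)).2.1⟩
  · rw [hh]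
    exact hs0 _ (hg0 y hy)
  · rw [hh]
    exact hs1 _ (hg1 y hy)
  · show H y • vort v y = _
    rw [hH]
    show (χ y * h y * θ y) • vort v y = _
    rw [hχ1 y (by rwa [mem_closedBall, dist_eq_norm]), one_mul]
  · have h1 : tsupport σ ⊆ tsupport χ := by
      refine closure_mono ?_
      intro y hy hc
      apply hy
      rw [hσ]
      show χ y * s y * θ y = 0
      rw [hc, zero_mul, zero_mul]
    refine h1.trans ?_
    rw [hχt]
    exact closedBall_subset_closedBall (by linarith)
  · rw [hσ]
    show |χ y * s y * θ y| ≤ _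
    rw [abs_mul, abs_mul, hθ1, mul_one]
    calc |χ y| * |s y| ≤ 1 * |s y| := mul_le_mul_of_nonneg_right (hχb y) (abs_nonneg _)
      _ = |s y| := one_mul _
      _ ≤ _ := hsbd y
  · refine (hsup y fun h0 => hy ?_).le
    rw [hσ]
    show χ y * s y * θ y = 0
    rw [h0, mul_zero, zero_mul]
  · have hcs : HasCompactSupport F :=
      (isCompact_closedBall a (R / 2)).of_isClosed_subset (isClosed_tsupport F) hts
    have hFH : ContDiff ℝ 1 (fun y => F y * H y) := hF.mul hHc
    have hFHs : HasCompactSupport (fun y => F y * H y) := hcs.mul_right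
    have h1 := div_int hdf hFH hFHs
    have h2 : ∀ y, fderiv ℝ (fun y => F y * H y) y (vort v y) =
        fderiv ℝ F y (H y • vort v y) + F y * fderiv ℝ H y (vort v y) := by
      intro y
      have a1 := (hF.differentiable one_ne_zero y).hasFDerivAt
      have a2 := (hHc.differentiable one_ne_zero y).hasFDerivAt
      have a3 := a1.fun_mul a2
      rw [a3.fderiv]
      simp only [add_apply, smul_apply, smul_eq_mul, map_smul]
      ring
    have h3 : ∀ y, F y * fderiv ℝ H y (vort v y) = F y * σ y := by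
      intro y
      by_cases hy : F y = 0
      · rw [hy, zero_mul, zero_mul]
      · congr 1
        have hy1 : ∀ᶠ z in 𝓝 y, χ z = 1 := by
          have h4 : ∀ᶠ z in 𝓝 y, F z ≠ 0 := hF.continuous.continuousAt.eventually_ne hy
          filter_upwards [h4] with z hz
          exact hχ1 z (hts (subset_tsupport F hz))
        have hyb : y ∈ ball a R := by
          have h4 := hts (subset_tsupport F hy)
          rw [mem_closedBall] at h4
          rw [Metric.mem_ball]
          linarith
        by_cases hMy : M < om v y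
        · have h5 : H =ᶠ[𝓝 y] fun z => θ y * h z := by
            filter_upwards [hy1, hθloc y hyb hMy] with z hz1 hz2
            rw [hH]
            show χ z * h z * θ z = _
            rw [hz1, hz2]
            ring
          rw [h5.fderiv_eq]
          have a1 := (hhc.differentiable one_ne_zero y).hasFDerivAt
          have a3 := a1.const_mul (θ y)
          rw [a3.fderiv, hσ, hs]
          show (θ y • fderiv ℝ h y) (vort v y) = χ y * (stp' (g y) *
            ((2 * M + 3)⁻¹ * fderiv ℝ (oo (vort v)) y (vort v y))) * θ y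
          rw [hy1.self_of_nhds]
          simp only [smul_apply, smul_eq_mul]
          rw [hhf y]
          ring
        · have h4 := hlow y (not_lt.1 hMy)
          have h5 : H =ᶠ[𝓝 y] fun _ => 0 := by
            filter_upwards [h4] with z hz
            rw [hH]
            show χ z * h z * θ z = 0
            rw [hh0 z hz]
            ring
          rw [h5.fderiv_eq, hσ]
          show fderiv ℝ (fun _ : V => (0 : ℝ)) y (vort v y) = χ y * s y * θ y
          rw [hs00 y h4.self_of_nhds]
          simp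
    have i1 : Integrable fun y => F y * σ y :=
      (hF.continuous.mul hσc).integrable_of_hasCompactSupport hcs.mul_right
    have i2 : Integrable fun y => fderiv ℝ F y (H y • vort v y) := by
      refine (((hF.continuous_fderiv one_ne_zero).clm_apply
        (hHc.continuous.smul hwc))).integrable_of_hasCompactSupport ?_
      exact (hcs.fderiv (𝕜 := ℝ)).mono' (by
        intro y hy
        apply subset_tsupport
        intro h0
        apply hy
        show fderiv ℝ F y (H y • vort v y) = 0
        rw [h0]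
        rfl)
    have h4 : ∫ y, fderiv ℝ (fun y => F y * H y) y (vort v y) =
        ∫ y, (fderiv ℝ F y (H y • vort v y) + F y * σ y) := by
      refine integral_congr_ae (Eventually.of_forall fun y => ?_)
      show fderiv ℝ (fun y => F y * H y) y (vort v y) = _
      rw [h2, h3]
    rw [h4, integral_add i2 i1] at h1
    show ∫ y, fderiv ℝ F y (H y • vort v y) = _
    linarith

theorem w0_all : Pool.Agent.Q67.LV.StmW0 := w0 Pool.Agent.Q182.VL.stmBas

end Pool.Agent.Q14.LV
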